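import Pool.Agent.H64.BTL.Stmts

/-! Board btl (helper64, MP_c9ffa7_al), row INC. -/

set_option autoImplicit false

universe u v

namespace Pool.BTL

open Polynomial

namespace Inc

variable {G : Type u} {k : Type v} [Group G] [Field k]

/-- no invariant subspaces -/
def IrrE {V : Type v} [AddCommGroup V] [Module k V] (σ : G →* Module.End k V) : Prop :=
  ∀ W : Submodule k V, (∀ g, ∀ x ∈ W, σ g x ∈ W) → W = ⊥ ∨ W = ⊤

theorem inter {V V' : Type v} [AddCommGroup V] [Module k V] [AddCommGroup V'] [Module k V']
    (f : V →ₗ[k] V') (A : Module.End k V) (B : Module.End k V') (h : ∀ x, f (A x) = B (f x))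
    (P : k[X]) : ∀ x, f (aeval A P x) = aeval B P (f x) := by
  have hpow : ∀ (n : ℕ) x, f ((A ^ n) x) = (B ^ n) (f x) := by
    intro n
    induction n with
    | zero => intro x; rfl
    | succ n ih =>
      intro x
      rw [pow_succ, pow_succ, Module.End.mul_apply, Module.End.mul_apply, ih, h]
  induction P using Polynomial.induction_on' with
  | add p q hp hq =>
    intro x
    rw [map_add, map_add, LinearMap.add_apply, LinearMap.add_apply, map_add, hp, hq]
  | monomial n a =>
    intro x
    rw [aeval_monomial, aeval_monomial, Module.End.mul_apply, Module.End.mul_apply, ← hpow]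
    simp only [Module.algebraMap_end_apply, map_smul]

/-- the action on an invariant subspace -/
def sub {V : Type v} [AddCommGroup V] [Module k V] (σ : G →* Module.End k V) (W : Submodule k V)
    (h : ∀ g, ∀ x ∈ W, σ g x ∈ W) : G →* Module.End k W where
  toFun g := (σ g).restrict (h g)
  map_one' := by
    ext x
    simp
  map_mul' a b := by
    ext x
    simp [LinearMap.restrict_apply]

/-- the action on the quotient -/
def quo {V : Type v} [AddCommGroup V] [Module k V] (σ : G →* Module.End k V) (W : Submodule k V)
    (h : ∀ g, ∀ x ∈ W, σ g x ∈ W) : G →* Module.End k (V ⧸ W) where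
  toFun g := W.mapQ W (σ g) (h g)
  map_one' := by
    ext x
    simp
  map_mul' a b := by
    ext x
    simp

/-- the matrix form -/
noncomputable def mat {V : Type v} [AddCommGroup V] [Module k V] (σ : G →* Module.End k V) {n : ℕ}
    (b : Module.Basis (Fin n) k V) : G →* Matrix (Fin n) (Fin n) k where
  toFun g := LinearMap.toMatrixAlgEquiv b (σ g)
  map_one' := by rw [map_one, map_one]
  map_mul' x y := by rw [map_mul, map_mul]

theorem mat_mulVec {V : Type v} [AddCommGroup V] [Module k V] (σ : G →* Module.End k V) {n : ℕ}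
    (b : Module.Basis (Fin n) k V) (g : G) (x : V) :
    (mat σ b g).mulVec (b.equivFun x) = b.equivFun (σ g x) := by
  exact LinearMap.toMatrix_mulVec_repr b b (σ g) x

theorem mat_irr {V : Type v} [AddCommGroup V] [Module k V] (σ : G →* Module.End k V) {n : ℕ}
    (b : Module.Basis (Fin n) k V) (h : IrrE σ) : Irr (mat σ b) := by
  intro W hW
  have h1 := h (W.comap (b.equivFun : V →ₗ[k] (Fin n → k))) (by
    intro g x hx
    have hx' : b.equivFun x ∈ W := hx
    show b.equivFun (σ g x) ∈ W
    rw [← mat_mulVec]
    exact hW g _ hx')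
  rcases h1 with h1 | h1
  · left
    rw [eq_bot_iff]
    intro y hy
    have h2 : b.equivFun.symm y ∈ W.comap (b.equivFun : V →ₗ[k] (Fin n → k)) := by
      show b.equivFun (b.equivFun.symm y) ∈ W
      rw [LinearEquiv.apply_symm_apply]
      exact hy
    rw [h1, Submodule.mem_bot] at h2
    rw [Submodule.mem_bot]
    exact (LinearEquiv.map_eq_zero_iff _).1 h2
  · right
    rw [eq_top_iff]
    intro y _
    have h2 : b.equivFun.symm y ∈ W.comap (b.equivFun : V →ₗ[k] (Fin n → k)) := by
      rw [h1]
      exact Submodule.mem_top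
    have h3 : b.equivFun (b.equivFun.symm y) ∈ W := h2
    rwa [LinearEquiv.apply_symm_apply] at h3

theorem mat_aeval {V : Type v} [AddCommGroup V] [Module k V] (σ : G →* Module.End k V) {n : ℕ}
    (b : Module.Basis (Fin n) k V) (g : G) (P : k[X]) (h : aeval (σ g) P = 0) :
    aeval (mat σ b g) P = 0 := by
  have h1 : aeval (LinearMap.toMatrixAlgEquiv b (σ g)) P =
      LinearMap.toMatrixAlgEquiv b (aeval (σ g) P) :=
    Polynomial.aeval_algHom_apply (LinearMap.toMatrixAlgEquiv b).toAlgHom (σ g) P
  show aeval (LinearMap.toMatrixAlgEquiv b (σ g)) P = 0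
  rw [h1, h, map_zero]

theorem main (g : G) (P : k[X]) (E : k → Prop)
    (H : ∀ (n : ℕ) (ρ : G →* Matrix (Fin n) (Fin n) k), n ≠ 0 → Irr ρ → aeval (ρ g) P = 0 →
      ∀ (c : k) (x : Fin n → k), x ≠ 0 → (ρ g).mulVec x = c • x → E c) (d : ℕ) :
    ∀ (V : Type v) [AddCommGroup V] [Module k V] [FiniteDimensional k V]
      (σ : G →* Module.End k V), Module.finrank k V = d → aeval (σ g) P = 0 →
      ∀ (c : k) (x : V), x ≠ 0 → σ g x = c • x → E c := by
  induction d using Nat.strong_induction_on with
  | _ d ih =>
    intro V _ _ _ σ hd hP c x hx hc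
    by_cases hirr : IrrE σ
    · have hn : Module.finrank k V ≠ 0 := by
        intro h0
        have := Module.finrank_zero_iff.1 h0
        exact hx (Subsingleton.elim x 0)
      let b := Module.finBasis k V
      refine H _ (mat σ b) hn (mat_irr σ b hirr) (mat_aeval σ b g P hP) c (b.equivFun x) ?_ ?_
      · intro h0
        exact hx ((LinearEquiv.map_eq_zero_iff _).1 h0)
      · rw [mat_mulVec, hc, map_smul]
    · unfold IrrE at hirr
      push Not at hirr
      obtain ⟨W, hW, hbot, htop⟩ := hirr
      by_cases hxW : x ∈ W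
      · have hlt : Module.finrank k W < d := by
          rw [← hd]
          exact Submodule.finrank_lt htop
        have hP' : aeval (sub σ W hW g) P = 0 := by
          ext y
          have h1 := inter W.subtype (sub σ W hW g) (σ g) (fun _ => rfl) P y
          rw [hP] at h1
          simpa using h1
        refine ih _ hlt W (sub σ W hW) rfl hP' c ⟨x, hxW⟩ ?_ ?_
        · intro h0
          exact hx (congrArg Subtype.val h0)
        · apply Subtype.ext
          exact hc
      · have hlt : Module.finrank k (V ⧸ W) < d := by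
          have h1 := Submodule.finrank_quotient_add_finrank W
          have h2 : 0 < Module.finrank k W := by
            rw [Module.finrank_pos_iff]
            exact Submodule.nontrivial_iff_ne_bot.2 hbot
          omega
        have hP' : aeval (quo σ W hW g) P = 0 := by
          ext y
          have h1 := inter W.mkQ (σ g) (quo σ W hW g) (fun _ => rfl) P y
          rw [hP] at h1
          simpa using h1.symm
        refine ih _ hlt (V ⧸ W) (quo σ W hW) rfl hP' c (W.mkQ x) ?_ ?_
        · intro h0
          exact hxW ((Submodule.Quotient.mk_eq_zero W).1 h0)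
        · show W.mkQ (σ g x) = c • W.mkQ x
          rw [hc, map_smul]

/-- matrices as linear maps -/
noncomputable def lin {n : ℕ} (ρ : G →* Matrix (Fin n) (Fin n) k) :
    G →* Module.End k (Fin n → k) where
  toFun g := Matrix.toLinAlgEquiv' (ρ g)
  map_one' := by rw [map_one, map_one]
  map_mul' x y := by rw [map_mul, map_mul]

end Inc

theorem INC_thm : INCStmt.{u, v} := by
  intro G k _ _ g P E H n ρ hP c x hx hc
  refine Inc.main g P E H _ (Fin n → k) (Inc.lin ρ) rfl ?_ c x hx ?_
  · have h1 : aeval (Matrix.toLinAlgEquiv' (ρ g)) P = Matrix.toLinAlgEquiv' (aeval (ρ g) P) :=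
      Polynomial.aeval_algHom_apply
        (Matrix.toLinAlgEquiv' : Matrix (Fin n) (Fin n) k ≃ₐ[k] _).toAlgHom (ρ g) P
    show aeval (Matrix.toLinAlgEquiv' (ρ g)) P = 0
    rw [h1, hP, map_zero]
  · show Matrix.toLinAlgEquiv' (ρ g) x = c • x
    rw [Matrix.toLinAlgEquiv'_apply]
    exact hc

end Pool.BTL
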