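import Pool.Agent.H71.BTL.INC

/-! Board btl (helper64, MP_c9ffa7_al), row IND. -/

set_option autoImplicit false

universe u v

namespace Pool.BTL

open Polynomial

namespace Inc

variable {G : Type u} {k : Type v} [Group G] [Field k]

theorem triv (hG : commutator G = ⊤) (g : G) (P : k[X])
    (H : ∀ (n : ℕ) (ρ : G →* Matrix (Fin n) (Fin n) k), n ≠ 0 → Irr ρ → aeval (ρ g) P = 0 →
      ρ = 1) (d : ℕ) :
    ∀ (V : Type v) [AddCommGroup V] [Module k V] [FiniteDimensional k V]
      (σ : G →* Module.End k V), Module.finrank k V = d → aeval (σ g) P = 0 → ∀ a x, σ a x = x := by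
  induction d using Nat.strong_induction_on with
  | _ d ih =>
    intro V _ _ _ σ hd hP
    by_cases hirr : IrrE σ
    · by_cases hn : Module.finrank k V = 0
      · have := Module.finrank_zero_iff.1 hn
        intro a x
        exact Subsingleton.elim _ _
      · let b := Module.finBasis k V
        have h1 := H _ (mat σ b) hn (mat_irr σ b hirr) (mat_aeval σ b g P hP)
        intro a x
        apply b.equivFun.injective
        rw [← mat_mulVec, h1, MonoidHom.one_apply, Matrix.one_mulVec]
    · unfold IrrE at hirr
      push Not at hirr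
      obtain ⟨W, hW, hbot, htop⟩ := hirr
      have hlt1 : Module.finrank k W < d := by
        rw [← hd]
        exact Submodule.finrank_lt htop
      have hP1 : aeval (sub σ W hW g) P = 0 := by
        ext y
        have h1 := inter W.subtype (sub σ W hW g) (σ g) (fun _ => rfl) P y
        rw [hP] at h1
        simpa using h1
      have hlt2 : Module.finrank k (V ⧸ W) < d := by
        have h1 := Submodule.finrank_quotient_add_finrank W
        have h2 : 0 < Module.finrank k W := by
          rw [Module.finrank_pos_iff]
          exact Submodule.nontrivial_iff_ne_bot.2 hbot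
        omega
      have hP2 : aeval (quo σ W hW g) P = 0 := by
        ext y
        have h1 := inter W.mkQ (σ g) (quo σ W hW g) (fun _ => rfl) P y
        rw [hP] at h1
        simpa using h1.symm
      have t1 := ih _ hlt1 W (sub σ W hW) rfl hP1
      have t2 := ih _ hlt2 (V ⧸ W) (quo σ W hW) rfl hP2
      have s1 : ∀ a, ∀ x ∈ W, σ a x = x := by
        intro a x hx
        exact congrArg Subtype.val (t1 a ⟨x, hx⟩)
      have s2 : ∀ a x, σ a x - x ∈ W := by
        intro a x
        have h1 : W.mkQ (σ a x) = W.mkQ x := t2 a (W.mkQ x)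
        rw [← Submodule.ker_mkQ W, LinearMap.mem_ker, map_sub, h1, sub_self]
      have s3 : ∀ a b x, σ (a * b) x = x + (σ a x - x) + (σ b x - x) := by
        intro a b x
        have h1 : σ (a * b) x = σ a (σ b x) := by rw [map_mul]; rfl
        have h2 : σ b x = x + (σ b x - x) := by abel
        rw [h1]
        conv_lhs => rw [h2]
        rw [map_add, s1 a _ (s2 b x)]
        abel
      have s4 : ∀ a b, σ (a * b) = σ (b * a) := by
        intro a b
        apply LinearMap.ext
        intro x
        rw [s3, s3]
        abel
      have s5 : commutator G ≤ σ.ker := by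
        rw [commutator_def, Subgroup.commutator_le]
        intro a _ b _
        rw [MonoidHom.mem_ker, commutatorElement_def]
        have h1 : σ (a * b * a⁻¹ * b⁻¹) = σ (a * b) * σ (a⁻¹ * b⁻¹) := by
          rw [← map_mul, mul_assoc]
        rw [h1, s4, ← map_mul]
        have h2 : b * a * (a⁻¹ * b⁻¹) = 1 := by group
        rw [h2, map_one]
      intro a x
      have h1 : a ∈ σ.ker := s5 (by rw [hG]; trivial)
      rw [MonoidHom.mem_ker.1 h1]
      rfl

end Inc

theorem IND_thm : INDStmt.{u, v} := by
  intro G k _ _ g P hG H n ρ hP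
  have h := Inc.triv hG g P H _ (Fin n → k) (Inc.lin ρ) rfl (by
    have h1 : aeval (Matrix.toLinAlgEquiv' (ρ g)) P = Matrix.toLinAlgEquiv' (aeval (ρ g) P) :=
      Polynomial.aeval_algHom_apply
        (Matrix.toLinAlgEquiv' : Matrix (Fin n) (Fin n) k ≃ₐ[k] _).toAlgHom (ρ g) P
    show aeval (Matrix.toLinAlgEquiv' (ρ g)) P = 0
    rw [h1, hP, map_zero])
  apply MonoidHom.ext
  intro a
  have h1 : Matrix.toLinAlgEquiv' (ρ a) = 1 := by
    apply LinearMap.ext
    intro x
    exact h a x
  apply Matrix.toLinAlgEquiv'.injective
  rw [h1, MonoidHom.one_apply, map_one]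

end Pool.BTL
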